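import Pool.Agent.Helper6.NX.GoalsA

/-! Packet NX-L3C: entropy is at most the logarithm of the number of values. -/

set_option linter.unusedVariables false

namespace Pool.Agent.Helper86.NX

open Pool.Agent.Helper6.NX

theorem ent_unit {Ω : Type} [Fintype Ω] (P : Ω → ℝ) (hP : IsLaw P) :
    ent P (fun _ => ()) = 0 := by
  have h1 : law P (fun _ : Ω => ()) () = 1 := by
    have : law P (fun _ : Ω => ()) () = ∑ ω, P ω := by
      unfold law
      exact Finset.sum_congr rfl (fun ω _ => if_pos rfl)
    rw [this, hP.2]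
  unfold ent
  rw [neg_eq_zero]
  apply Finset.sum_eq_zero
  intro ω _
  show P ω * Real.log (law P (fun _ : Ω => ()) ()) = 0
  rw [h1, Real.log_one, mul_zero]

theorem ent_pair_unit {Ω α : Type} [Fintype Ω] (P : Ω → ℝ) (X : Ω → α) :
    ent P (fun ω => (X ω, ())) = ent P X := by
  have h1 : ∀ a, law P (fun ω => (X ω, ())) (a, ()) = law P X a := by
    intro a
    unfold law
    apply Finset.sum_congr rfl
    intro ω _
    by_cases h : X ω = a
    · rw [if_pos h, if_pos (show (X ω, ()) = (a, ()) by rw [h])]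
    · rw [if_neg h, if_neg (fun e => h (Prod.ext_iff.1 e).1)]
  unfold ent
  congr 1
  apply Finset.sum_congr rfl
  intro ω _
  show P ω * Real.log (law P (fun ω => (X ω, ())) (X ω, ())) = _
  rw [h1]

theorem thmL3C (hl3 : Pool.Agent.Helper6.NX.S_L3) : Pool.Agent.Helper6.NX.S_L3C := by
  have part1 : ∀ (Ω α β : Type) [Fintype Ω] (P : Ω → ℝ) (X : Ω → α) (Y : Ω → β), IsLaw P →
      ∀ s : β → Finset α, (∀ ω, 0 < P ω → X ω ∈ s (Y ω)) →
      cent P X Y ≤ ∑ ω, P ω * Real.log ((s (Y ω)).card : ℝ) := by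
    intro Ω α β _ P X Y hP s hs
    classical
    let q : β → α → ℝ := fun b a => if a ∈ s b then ((s b).card : ℝ)⁻¹ else 0
    have h := hl3 Ω α β P X Y q hP
      (by
        intro b a
        show (0:ℝ) ≤ if a ∈ s b then ((s b).card : ℝ)⁻¹ else 0
        split_ifs
        · positivity
        · exact le_rfl)
      (by
        intro b t
        show ∑ a ∈ t, (if a ∈ s b then ((s b).card : ℝ)⁻¹ else 0) ≤ 1
        rw [← Finset.sum_filter, Finset.sum_const, nsmul_eq_mul]
        rcases Nat.eq_zero_or_pos (s b).card with h0 | h0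
        · rw [h0]; simp
        · have h0' : (0:ℝ) < ((s b).card : ℝ) := by exact_mod_cast h0
          rw [← div_eq_mul_inv, div_le_one h0']
          have : (t.filter (fun a => a ∈ s b)).card ≤ (s b).card :=
            Finset.card_le_card (fun a ha => (Finset.mem_filter.1 ha).2)
          exact_mod_cast this)
      (by
        intro ω hω
        have hm := hs ω hω
        show (0:ℝ) < if X ω ∈ s (Y ω) then ((s (Y ω)).card : ℝ)⁻¹ else 0
        rw [if_pos hm]
        have : 0 < (s (Y ω)).card := Finset.card_pos.2 ⟨_, hm⟩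
        positivity)
    refine h.trans (le_of_eq ?_)
    rw [← Finset.sum_neg_distrib]
    apply Finset.sum_congr rfl
    intro ω _
    rcases (hP.1 ω).eq_or_lt with h0 | h0
    · rw [← h0]; simp
    · have hm := hs ω h0
      show -(P ω * Real.log (if X ω ∈ s (Y ω) then ((s (Y ω)).card : ℝ)⁻¹ else 0)) = _
      rw [if_pos hm, Real.log_inv]
      ring
  have part2 : ∀ (Ω α : Type) [Fintype Ω] (P : Ω → ℝ) (X : Ω → α), IsLaw P →
      ∀ s : Finset α, (∀ ω, 0 < P ω → X ω ∈ s) → ent P X ≤ Real.log (s.card : ℝ) := by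
    intro Ω α _ P X hP s hs
    have h := part1 Ω α Unit P X (fun _ => ()) hP (fun _ => s) hs
    unfold cent at h
    rw [ent_pair_unit, ent_unit P hP, sub_zero, ← Finset.sum_mul, hP.2, one_mul] at h
    exact h
  intro Ω α β _ P X Y hP
  refine ⟨part1 Ω α β P X Y hP, part2 Ω α P X hP, ent_unit P hP, ?_⟩
  have h := part2 Ω Ω P (fun g => g) hP Finset.univ (fun ω _ => Finset.mem_univ _)
  exact h

end Pool.Agent.Helper86.NX
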